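import Mathlib

/-!
# Project LC (ALA): general lemmas

* `cover`: a quantitative open mapping theorem for bounded holomorphic functions;
* `shrink`: the derivatives of the iterates of a map which divides a continuous function by `d`
  tend to zero;
* `land`: bounded sequences with `f (y n) - y n → 0` and `y (n + 1) - y n → 0` converge to a fixed
  point, if there are only finitely many fixed points.
-/

set_option autoImplicit false

open Set Filter Metric Topology

namespace Pool.Agent.Y604.LC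

theorem cover (ρ M ε : ℝ) (hρ : 0 < ρ) (hM : 0 < M) (hε : 0 < ε) :
    ∃ η : ℝ, 0 < η ∧ ∀ (F : ℂ → ℂ) (x : ℂ), DifferentiableOn ℂ F (ball x ρ) →
      (∀ z ∈ ball x ρ, ‖F z‖ ≤ M) → ε ≤ ‖deriv F x‖ → ball (F x) η ⊆ F '' ball x ρ := by
  obtain ⟨B, hB⟩ : ∃ B : ℝ, B = M / (ρ / 4) / (ρ / 4) := ⟨_, rfl⟩
  have hB0 : 0 < B := by rw [hB]; positivity
  obtain ⟨r, hr⟩ : ∃ r : ℝ, r = min (ρ / 4) (ε / (2 * B)) := ⟨_, rfl⟩
  have hr0 : 0 < r := by rw [hr]; positivity
  have hr1 : r ≤ ρ / 4 := by rw [hr]; exact min_le_left _ _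
  have hr2 : r ≤ ε / (2 * B) := by rw [hr]; exact min_le_right _ _
  refine ⟨ε * r / 2 / 2, by positivity, fun F x hF hFM hFx => ?_⟩
  have hxρ : x ∈ ball x ρ := mem_ball_self hρ
  -- first derivative
  have h1 : ∀ z ∈ ball x (3 * ρ / 4), ‖deriv F z‖ ≤ M / (ρ / 4) := by
    intro z hz
    have hsub : closedBall z (ρ / 4) ⊆ ball x ρ := by
      intro w hw
      rw [mem_ball] at hz ⊢
      rw [mem_closedBall] at hw
      have := dist_triangle w z x
      linarith
    refine Complex.norm_deriv_le_of_forall_mem_sphere_norm_le (by positivity) ?_ ?_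
    · exact (hF.mono (by rw [closure_ball _ (by positivity)]; exact hsub)).diffContOnCl
    · intro w hw
      exact hFM w (hsub (sphere_subset_closedBall hw))
  -- second derivative
  have hF' : DifferentiableOn ℂ (deriv F) (ball x ρ) := hF.deriv isOpen_ball
  have h2 : ∀ z ∈ ball x (ρ / 2), ‖deriv (deriv F) z‖ ≤ B := by
    intro z hz
    have hsub : closedBall z (ρ / 4) ⊆ ball x (3 * ρ / 4) := by
      intro w hw
      rw [mem_ball] at hz ⊢
      rw [mem_closedBall] at hw
      have := dist_triangle w z x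
      linarith
    have hsub' : ball x (3 * ρ / 4) ⊆ ball x ρ := ball_subset_ball (by linarith)
    rw [hB]
    refine Complex.norm_deriv_le_of_forall_mem_sphere_norm_le (by positivity) ?_ ?_
    · exact (hF'.mono (by rw [closure_ball _ (by positivity)]; exact hsub.trans hsub')).diffContOnCl
    · intro w hw
      exact h1 w (hsub (sphere_subset_closedBall hw))
  have hsub2 : ball x (ρ / 2) ⊆ ball x ρ := ball_subset_ball (by linarith)
  have h3 : ∀ z ∈ ball x (ρ / 2), ‖deriv F z - deriv F x‖ ≤ B * ‖z - x‖ := by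
    intro z hz
    exact Convex.norm_image_sub_le_of_norm_deriv_le
      (fun w hw => (hF' w (hsub2 hw)).differentiableAt (isOpen_ball.mem_nhds (hsub2 hw)))
      h2 (convex_ball _ _) (mem_ball_self (by positivity)) hz
  have hsub3 : closedBall x r ⊆ ball x (ρ / 2) := by
    intro w hw
    rw [mem_closedBall] at hw
    rw [mem_ball]
    linarith
  have hdF : ∀ w ∈ closedBall x r, DifferentiableAt ℂ F w := fun w hw =>
    (hF w (hsub2 (hsub3 hw))).differentiableAt (isOpen_ball.mem_nhds (hsub2 (hsub3 hw)))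
  have h4 : ∀ z ∈ closedBall x r, ‖(F z - deriv F x * z) - (F x - deriv F x * x)‖ ≤
      (B * r) * ‖z - x‖ := by
    intro z hz
    refine Convex.norm_image_sub_le_of_norm_deriv_le (f := fun w => F w - deriv F x * w)
      (s := closedBall x r) ?_ ?_ (convex_closedBall _ _) (mem_closedBall_self hr0.le) hz
    · intro w hw
      exact (hdF w hw).sub (differentiableAt_id.const_mul _)
    · intro w hw
      have h5 : deriv (fun w => F w - deriv F x * w) w = deriv F w - deriv F x := by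
        have h6 : HasDerivAt (fun w => F w - deriv F x * w) (deriv F w - deriv F x * 1) w :=
          (hdF w hw).hasDerivAt.sub ((hasDerivAt_id w).const_mul _)
        rw [h6.deriv, mul_one]
      rw [h5]
      refine (h3 w (hsub3 hw)).trans ?_
      rw [mem_closedBall, dist_eq_norm] at hw
      exact mul_le_mul_of_nonneg_left hw hB0.le
  have h5 : ∀ z ∈ sphere x r, ε * r / 2 ≤ ‖F z - F x‖ := by
    intro z hz
    have hz' : ‖z - x‖ = r := by rwa [mem_sphere, dist_eq_norm] at hz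
    have h6 := h4 z (sphere_subset_closedBall hz)
    rw [hz'] at h6
    have h7 : deriv F x * (z - x) = (F z - F x) -
        ((F z - deriv F x * z) - (F x - deriv F x * x)) := by ring
    have h8 : ‖deriv F x‖ * r ≤ ‖F z - F x‖ + B * r * r := by
      rw [← hz', ← norm_mul, h7, hz']
      exact (norm_sub_le _ _).trans (by linarith)
    have h9 : ε * r ≤ ‖deriv F x‖ * r := mul_le_mul_of_nonneg_right hFx hr0.le
    have h10 : B * r ≤ ε / 2 := by
      have := mul_le_mul_of_nonneg_left hr2 hB0.le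
      have h11 : B * (ε / (2 * B)) = ε / 2 := by field_simp
      linarith
    have h12 : B * r * r ≤ ε / 2 * r := mul_le_mul_of_nonneg_right h10 hr0.le
    linarith
  have h6 : DiffContOnCl ℂ F (ball x r) := by
    refine DifferentiableOn.diffContOnCl ?_
    rw [closure_ball _ hr0.ne']
    exact hF.mono (hsub3.trans hsub2)
  have h7 : ∃ᶠ z in 𝓝 x, F z ≠ F x := by
    have h8 : HasDerivAt F (deriv F x) x := (hdF x (mem_closedBall_self hr0.le)).hasDerivAt
    have h9 : deriv F x ≠ 0 := by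
      intro h10
      rw [h10, norm_zero] at hFx
      linarith
    have h11 : ∀ᶠ z in 𝓝[≠] x, F z ≠ F x := h8.eventually_ne h9
    exact h11.frequently.filter_mono nhdsWithin_le_nhds
  refine (h6.ball_subset_image_closedBall hr0 h5 h7).trans ?_
  exact image_mono (hsub3.trans hsub2)

section

variable {G : ℂ → ℝ} {d s : ℝ} {g : ℂ → ℂ}

theorem iter_G (hG0 : ∀ z, 0 ≤ G z) (hd : 1 < d)
    (hGg : ∀ z, G z < s → G (g z) = G z / d) (n : ℕ) :
    ∀ z, G z < s → G (g^[n] z) = G z / d ^ n ∧ G (g^[n] z) < s := by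
  induction n with
  | zero =>
    intro z hz
    simp [hz]
  | succ n ih =>
    intro z hz
    have hd0 : 0 < d := by linarith
    have h1 := ih z hz
    rw [Function.iterate_succ_apply', hGg _ h1.2, h1.1]
    refine ⟨by rw [pow_succ, div_div], ?_⟩
    rw [div_div, ← pow_succ]
    refine lt_of_le_of_lt (div_le_self (hG0 z) (one_le_pow₀ hd.le)) hz

theorem iter_diff (hG0 : ∀ z, 0 ≤ G z) (hd : 1 < d)
    (hg : DifferentiableOn ℂ g {z | G z < s})
    (hGg : ∀ z, G z < s → G (g z) = G z / d) (n : ℕ) :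
    DifferentiableOn ℂ (g^[n]) {z | G z < s} := by
  induction n with
  | zero => exact differentiableOn_id
  | succ n ih =>
    rw [Function.iterate_succ']
    exact hg.comp ih fun z hz => (iter_G hG0 hd hGg n z hz).2

theorem shrink (hG : Continuous G) (hG0 : ∀ z, 0 ≤ G z) (hd : 1 < d) {M : ℝ}
    (hM : 0 < M) (hMb : ∀ z, G z < s → ‖z‖ ≤ M) (hg : DifferentiableOn ℂ g {z | G z < s})
    (hGg : ∀ z, G z < s → G (g z) = G z / d) {x : ℂ} (hx1 : 0 < G x) (hx2 : G x < s) :
    Tendsto (fun n => deriv (g^[n]) x) atTop (𝓝 0) := by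
  by_contra hcon
  rw [Metric.tendsto_atTop] at hcon
  push Not at hcon
  obtain ⟨ε, hε, hN⟩ := hcon
  have hfreq : ∃ᶠ n in atTop, ε ≤ ‖deriv (g^[n]) x‖ := by
    rw [frequently_atTop]
    intro N
    obtain ⟨n, hn, h1⟩ := hN N
    exact ⟨n, hn, by rwa [dist_zero_right] at h1⟩
  obtain ⟨φ, hφ, hφ2⟩ := extraction_of_frequently_atTop hfreq
  have hU : IsOpen {z | 0 < G z ∧ G z < s} :=
    (isOpen_lt continuous_const hG).inter (isOpen_lt hG continuous_const)
  obtain ⟨ρ, hρ, hρU⟩ := Metric.isOpen_iff.1 hU x ⟨hx1, hx2⟩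
  obtain ⟨η, hη, hcov⟩ := cover ρ M ε hρ hM hε
  obtain ⟨a, -, ψ, hψ, ha⟩ := tendsto_subseq_of_bounded (isBounded_closedBall (x := (0:ℂ)) (r := M))
    (x := fun k => g^[φ k] x) (fun k => by
      rw [mem_closedBall_zero_iff]
      exact hMb _ (iter_G hG0 hd hGg _ x hx2).2)
  have hGa : G a = 0 := by
    have h1 : Tendsto (fun k => G (((fun k => g^[φ k] x) ∘ ψ) k)) atTop (𝓝 (G a)) :=
      (hG.tendsto a).comp ha
    have h2 : Tendsto (fun n : ℕ => G x / d ^ n) atTop (𝓝 0) :=
      (tendsto_pow_atTop_atTop_of_one_lt hd).const_div_atTop _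
    have h3 : Tendsto (fun k => G x / d ^ (φ (ψ k))) atTop (𝓝 0) :=
      h2.comp (hφ.tendsto_atTop.comp hψ.tendsto_atTop)
    refine tendsto_nhds_unique h1 (h3.congr fun k => ?_)
    exact (iter_G hG0 hd hGg _ x hx2).1.symm
  have h1 : ∀ᶠ k in atTop, dist (((fun k => g^[φ k] x) ∘ ψ) k) a < η :=
    ha.eventually (ball_mem_nhds a hη)
  obtain ⟨k, hk⟩ := h1.exists
  have h2 : a ∈ ball (g^[φ (ψ k)] x) η := by
    rw [mem_ball, dist_comm]
    exact hk
  obtain ⟨w, hw, hwa⟩ := hcov (g^[φ (ψ k)]) x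
    ((iter_diff hG0 hd hg hGg _).mono fun z hz => (hρU hz).2)
    (fun z hz => hMb _ (iter_G hG0 hd hGg _ z (hρU hz).2).2) (hφ2 _) h2
  have h3 := (iter_G hG0 hd hGg (φ (ψ k)) w (hρU hw).2).1
  rw [hwa, hGa] at h3
  have h4 : 0 < G w / d ^ (φ (ψ k)) := div_pos (hρU hw).1 (by positivity)
  linarith

end

theorem land (f : ℂ → ℂ) (hf : Continuous f) (hfin : {z | f z = z}.Finite) (y : ℕ → ℂ) (M : ℝ)
    (hM : ∀ n, ‖y n‖ ≤ M) (h1 : Tendsto (fun n => f (y n) - y n) atTop (𝓝 0))
    (h2 : Tendsto (fun n => y (n + 1) - y n) atTop (𝓝 0)) :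
    ∃ p, f p = p ∧ Tendsto y atTop (𝓝 p) := by
  obtain ⟨p, -, φ, hφ, hp⟩ := tendsto_subseq_of_bounded
    (isBounded_closedBall (x := (0:ℂ)) (r := M)) (x := y)
    (fun k => by rw [mem_closedBall_zero_iff]; exact hM k)
  have hfp : f p = p := by
    have h3 : Tendsto (fun k => f (y (φ k)) - y (φ k)) atTop (𝓝 (f p - p)) :=
      ((hf.tendsto p).comp hp).sub hp
    have h4 : Tendsto (fun k => f (y (φ k)) - y (φ k)) atTop (𝓝 0) := h1.comp hφ.tendsto_atTop
    exact sub_eq_zero.1 (tendsto_nhds_unique h3 h4)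
  obtain ⟨δ, hδ, hδ2⟩ : ∃ δ : ℝ, 0 < δ ∧ ∀ z, ‖z - p‖ ≤ δ → f z = z → z = p := by
    have h3 : IsOpen ({z | f z = z} \ {p})ᶜ := (hfin.subset sdiff_subset).isClosed.isOpen_compl
    obtain ⟨δ, hδ, hsub⟩ := Metric.isOpen_iff.1 h3 p (by simp)
    refine ⟨δ / 2, by positivity, fun z hz hfz => ?_⟩
    by_contra hne
    exact hsub (show z ∈ ball p δ by rw [mem_ball, dist_eq_norm]; linarith) ⟨hfz, hne⟩
  refine ⟨p, hfp, ?_⟩
  rw [Metric.tendsto_atTop]
  intro ε hε
  obtain ⟨η, hη⟩ : ∃ η : ℝ, η = min ε δ := ⟨_, rfl⟩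
  have hη0 : 0 < η := by rw [hη]; positivity
  have hK : IsCompact {z : ℂ | η / 2 ≤ ‖z - p‖ ∧ ‖z - p‖ ≤ η} := by
    have h3 : {z : ℂ | η / 2 ≤ ‖z - p‖ ∧ ‖z - p‖ ≤ η} =
        closedBall p η ∩ {z : ℂ | η / 2 ≤ ‖z - p‖} := by
      ext z
      simp only [mem_ofPred_eq, mem_inter_iff, mem_closedBall, dist_eq_norm]
      tauto
    rw [h3]
    exact (isCompact_closedBall p η).inter_right
      (isClosed_le continuous_const (continuous_id.sub continuous_const).norm)
  obtain ⟨m, hm0, hm⟩ := hK.exists_forall_le' (f := fun z => ‖f z - z‖)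
    (hf.sub continuous_id).norm.continuousOn (a := 0) (by
      rintro z ⟨hz1, hz2⟩
      rw [norm_pos_iff, sub_ne_zero]
      intro hfz
      have := hδ2 z (hz2.trans (by rw [hη]; exact min_le_right _ _)) hfz
      rw [this, sub_self, norm_zero] at hz1
      linarith)
  obtain ⟨N1, hN1⟩ := Metric.tendsto_atTop.1 h1 m hm0
  obtain ⟨N2, hN2⟩ := Metric.tendsto_atTop.1 h2 (η / 2) (by positivity)
  obtain ⟨N3, hN3⟩ := Metric.tendsto_atTop.1 hp (η / 2) (by positivity)
  obtain ⟨k, hk⟩ : ∃ k, k = max (max N1 N2) N3 := ⟨_, rfl⟩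
  have hk0 : k ≤ φ k := hφ.id_le k
  have hk1 : N1 ≤ φ k := by omega
  have hk2 : N2 ≤ φ k := by omega
  have hk3 : ‖y (φ k) - p‖ < η / 2 := by
    have := hN3 k (by omega)
    rwa [dist_eq_norm] at this
  have key : ∀ j, ‖y (φ k + j) - p‖ < η / 2 := by
    intro j
    induction j with
    | zero => exact hk3
    | succ j ih =>
      have h3 := hN2 (φ k + j) (by omega)
      rw [dist_zero_right] at h3
      have h4 : ‖y (φ k + (j + 1)) - p‖ < η := by
        have h5 : y (φ k + (j + 1)) - p = (y (φ k + j + 1) - y (φ k + j)) + (y (φ k + j) - p) := by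
          rw [← add_assoc]; ring
        rw [h5]
        refine (norm_add_le _ _).trans_lt (by linarith)
      by_contra h5
      push Not at h5
      have h6 := hm _ ⟨h5, h4.le⟩
      have h7 := hN1 (φ k + (j + 1)) (by omega)
      rw [dist_zero_right] at h7
      linarith
  refine ⟨φ k, fun n hn => ?_⟩
  obtain ⟨j, rfl⟩ := Nat.exists_eq_add_of_le hn
  rw [dist_eq_norm]
  have h3 := key j
  have h4 : η ≤ ε := by rw [hη]; exact min_le_left _ _
  linarith

end Pool.Agent.Y604.LC
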