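import Pool.Agent.Y298.LC.Stm
import Pool.Agent.Y604.LC.Ala0

/-!
# Project LC (ALA): the rays whose angles stay in one arc land at one fixed point

Parameters outside the Multibrot set.
-/

set_option autoImplicit false

open Set Filter Metric MeasureTheory Topology Complex Bornology

namespace Pool.Agent.Y604.LC

open Pool.Agent.H712R2 (P fc)
open Pool.Agent.H713R2 (IsExteriorMap)
open Pool.Agent.H713R2.AR (green norm_iter_le green_nonneg continuous_green)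
open N62a1eb23 (multibrotSet)
open Pool.Agent.Y298.LC

theorem norm_ex (σ t : ℝ) : ‖ex σ t‖ = Real.exp σ := by
  unfold ex
  rw [Complex.norm_exp]
  congr 1
  simp

theorem ex_add_int (σ t : ℝ) (n : ℤ) : ex σ (t + n) = ex σ t := by
  unfold ex
  rw [Complex.exp_eq_exp_iff_exists_int]
  refine ⟨n, ?_⟩
  push_cast
  ring

theorem ex_inj {σ t σ' t' : ℝ} (h : ex σ t = ex σ' t') : σ = σ' ∧ ∃ n : ℤ, t = t' + n := by
  have h1 : Real.exp σ = Real.exp σ' := by rw [← norm_ex σ t, ← norm_ex σ' t', h]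
  refine ⟨Real.exp_injective h1, ?_⟩
  unfold ex at h
  rw [Complex.exp_eq_exp_iff_exists_int] at h
  obtain ⟨n, hn⟩ := h
  refine ⟨n, ?_⟩
  have h2 := congrArg Complex.im hn
  simp at h2
  have hpi := Real.pi_pos
  have h3 : 2 * Real.pi * (t - (t' + n)) = 0 := by linarith
  have h4 : t - (t' + n) = 0 := by
    rcases mul_eq_zero.1 h3 with h5 | h5
    · exfalso; linarith
    · exact h5
  linarith

/-- the data for one parameter outside -/
structure Dat (d : ℕ) (Ψ : ℂ → ℂ → ℂ) (c : ℂ) (s θ x : ℝ) (g : ℂ → ℂ) (A A₀ : Set ℝ)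
    (R : ℝ → ℝ → ℂ) : Prop where
  hd : 2 ≤ d
  hB : Bott d Ψ
  hG0 : green d c 0 = s / d
  hΨc : Ψ c (ex s θ) = c
  hs : 0 < s
  hx : ∃ n : ℤ, (d : ℝ) * x = θ + n
  GG : ∀ z, green d c (fc d c z) = d * green d c z
  gd : DifferentiableOn ℂ g (Slit Ψ c s θ)
  gf : ∀ z ∈ Slit Ψ c s θ, fc d c (g z) = z
  gΨ : ∀ σ t, s / d < σ → t ∈ Ioo x (x + 1 / d) →
    g (Ψ c (ex (d * σ) (d * t))) = Ψ c (ex σ t)
  AA : A₀ ⊆ A
  dA : ∀ t ∈ A₀, (d : ℝ) * t ∈ A₀
  Ax : ∀ t ∈ A₀, ∃ n : ℤ, t + n ∈ Ioo x (x + 1 / d)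
  cont : ∀ t ∈ A, ContinuousOn (R t) (Ioi 0)
  conj : ∀ t ∈ A, ∀ σ, 0 < σ → fc d c (R t σ) = R (d * t) (d * σ)
  pot : ∀ t ∈ A, ∀ σ, 0 < σ → green d c (R t σ) = σ
  high : ∀ t ∈ A, ∀ σ, 0 < σ → s / d < σ → R t σ = Ψ c (ex σ t)
  per : ∀ t ∈ A, ∀ n : ℤ, t + n ∈ A → ∀ σ, 0 < σ → R (t + n) σ = R t σ

section

variable {d : ℕ} {Ψ : ℂ → ℂ → ℂ} {c : ℂ} {s θ x : ℝ} {g : ℂ → ℂ} {A A₀ : Set ℝ}
  {R : ℝ → ℝ → ℂ} (H : Dat d Ψ c s θ x g A A₀ R)

include H

theorem dR : (2 : ℝ) ≤ d := by exact_mod_cast H.hd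

theorem hsd : s / d < s := by
  have h1 := dR H
  have h2 := H.hs
  rw [div_lt_iff₀ (by linarith)]
  nlinarith

theorem mem_Dom {σ : ℝ} (t : ℝ) (h : s / d < σ) : ex σ t ∈ Dom (green d c 0) := by
  show green d c 0 < Real.log ‖ex σ t‖
  rw [norm_ex, Real.log_exp, H.hG0]
  exact h

theorem pot_Psi {σ : ℝ} (t : ℝ) (h : s / d < σ) : green d c (Ψ c (ex σ t)) = σ := by
  rw [H.hB.pot c _ (mem_Dom H t h), norm_ex, Real.log_exp]

theorem slit_of_lt {z : ℂ} (h : green d c z < s) : z ∈ Slit Ψ c s θ := by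
  intro σ hσ hz
  have h1 := hsd H
  rw [hz, pot_Psi H θ (by linarith)] at h
  linarith

theorem G_g {z : ℂ} (h : green d c z < s) : green d c (g z) = green d c z / d := by
  have h1 := H.GG (g z)
  rw [H.gf z (slit_of_lt H h)] at h1
  have h2 := dR H
  rw [h1]
  field_simp

theorem slit_R {t σ : ℝ} (ht : t ∈ A₀) (hσ : 0 < σ) : R (d * t) σ ∈ Slit Ψ c s θ := by
  have hdt : (d : ℝ) * t ∈ A := H.AA (H.dA t ht)
  have h1 := hsd H
  have h2 := dR H
  rcases lt_or_ge σ s with h | h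
  · exact slit_of_lt H (by rw [H.pot _ hdt σ hσ]; exact h)
  · intro σ' hσ' heq
    rw [H.high _ hdt σ hσ (by linarith)] at heq
    have h3 := H.hB.inj c (mem_Dom H (d * t) (by linarith : s / d < σ))
      (mem_Dom H θ (by linarith : s / d < σ')) heq
    obtain ⟨-, m, hm⟩ := ex_inj h3
    obtain ⟨n, hn1, hn2⟩ := H.Ax t ht
    obtain ⟨n', hn'⟩ := H.hx
    have h4 : (d : ℝ) * x < d * (t + n) := mul_lt_mul_of_pos_left hn1 (by linarith)
    have h5 : (d : ℝ) * (t + n) < d * (x + 1 / d) := mul_lt_mul_of_pos_left hn2 (by linarith)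
    have h6 : (d : ℝ) * (x + 1 / d) = d * x + 1 := by field_simp
    have h7 : (n' : ℝ) < m + d * n := by linarith [mul_add (d : ℝ) t n]
    have h8 : (m : ℝ) + d * n < n' + 1 := by linarith [mul_add (d : ℝ) t n]
    have h9 : n' < m + d * n := by exact_mod_cast h7
    have h10 : m + d * n < n' + 1 := by exact_mod_cast h8
    omega

theorem g_R {t σ : ℝ} (ht : t ∈ A₀) (hσ : 0 < σ) : R t (σ / d) = g (R (d * t) σ) := by
  have hdR := dR H
  have hd0 : (0 : ℝ) < d := by linarith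
  have htA : t ∈ A := H.AA ht
  have hdt : (d : ℝ) * t ∈ A := H.AA (H.dA t ht)
  have hk : ContinuousOn (fun σ => R t (σ / d)) (Ioi 0) := by
    refine (H.cont t htA).comp (continuous_id.div_const _).continuousOn ?_
    intro σ hσ
    exact div_pos hσ hd0
  have hh : ContinuousOn (fun σ => g (R (d * t) σ)) (Ioi 0) :=
    H.gd.continuousOn.comp (H.cont _ hdt) fun σ hσ => slit_R H ht hσ
  have hfk : ∀ σ, 0 < σ → (R t (σ / d)) ^ d + c = R (d * t) σ := by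
    intro σ hσ
    have h1 := H.conj t htA (σ / d) (by positivity)
    rw [mul_div_cancel₀ _ hd0.ne'] at h1
    exact h1
  have hfh : ∀ σ, 0 < σ → (g (R (d * t) σ)) ^ d + c = R (d * t) σ := fun σ hσ =>
    H.gf _ (slit_R H ht hσ)
  have hk0 : ∀ σ, 0 < σ → R t (σ / d) ≠ 0 := by
    intro σ hσ h0
    have h1 := hfk σ hσ
    rw [h0, zero_pow (by have := H.hd; omega), zero_add] at h1
    have h2 := slit_R H ht hσ
    rw [← h1] at h2
    exact h2 s le_rfl H.hΨc.symm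
  have hq : ContinuousOn (fun σ => g (R (d * t) σ) / R t (σ / d)) (Ioi 0) :=
    hh.div hk fun σ hσ => hk0 σ hσ
  have hfin : {w : ℂ | w ^ d = 1}.Finite := by
    have h1 : {w : ℂ | w ^ d = 1} ⊆
        {w : ℂ | (Polynomial.X ^ d - Polynomial.C 1 : Polynomial ℂ).IsRoot w} := by
      intro w hw
      have hw' : w ^ d = 1 := hw
      show (Polynomial.X ^ d - Polynomial.C 1 : Polynomial ℂ).IsRoot w
      simp [Polynomial.IsRoot, hw']
    refine (Polynomial.finite_setOfPred_isRoot ?_).subset h1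
    exact Polynomial.X_pow_sub_C_ne_zero (by have := H.hd; omega) _
  have hmap : MapsTo (fun σ => g (R (d * t) σ) / R t (σ / d)) (Ioi 0) {w : ℂ | w ^ d = 1} := by
    intro σ hσ
    have hσ' : 0 < σ := hσ
    show (g (R (d * t) σ) / R t (σ / d)) ^ d = 1
    rw [div_pow, div_eq_one_iff_eq (pow_ne_zero _ (hk0 σ hσ'))]
    have h1 := hfk σ hσ'
    have h2 := hfh σ hσ'
    exact add_right_cancel (h2.trans h1.symm)
  have hconst := isPreconnected_Ioi.constant_of_mapsTo (T := {w : ℂ | w ^ d = 1})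
    hfin.isDiscrete hq hmap (x := σ) (y := 2 * s) hσ
    (show (0 : ℝ) < 2 * s by have := H.hs; linarith)
  have h2s : g (R (d * t) (2 * s)) / R t (2 * s / d) = 1 := by
    have hs := H.hs
    have h1 := hsd H
    rw [div_eq_one_iff_eq (hk0 _ (by linarith))]
    obtain ⟨n, hn⟩ := H.Ax t ht
    have h3 : s / d < 2 * s / d := by
      rw [div_lt_div_iff_of_pos_right hd0]
      linarith
    have h2 := H.gΨ (2 * s / d) (t + n) h3 hn
    rw [ex_add_int, mul_div_cancel₀ _ hd0.ne', mul_add] at h2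
    have h4 : (d : ℝ) * n = ((d * n : ℤ) : ℝ) := by push_cast; ring
    rw [h4, ex_add_int] at h2
    rw [H.high _ hdt _ (by linarith) (by linarith), h2, H.high t htA _ (by positivity) h3]
  have h1 : g (R (d * t) σ) / R t (σ / d) = 1 := by
    have h3 : (fun σ => g (R (d * t) σ) / R t (σ / d)) σ =
      (fun σ => g (R (d * t) σ) / R t (σ / d)) (2 * s) := hconst
    exact h3.trans h2s
  exact ((div_eq_one_iff_eq (hk0 σ hσ)).1 h1).symm

theorem dpow_mem (n : ℕ) : ∀ t ∈ A₀, (d : ℝ) ^ n * t ∈ A₀ := by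
  induction n with
  | zero => intro t ht; simpa using ht
  | succ n ih =>
    intro t ht
    have h1 := ih _ (H.dA t ht)
    rwa [← mul_assoc, ← pow_succ] at h1

theorem iter_R (n : ℕ) : ∀ t ∈ A₀, ∀ σ, 0 < σ →
    R t (σ / (d : ℝ) ^ n) = g^[n] (R ((d : ℝ) ^ n * t) σ) := by
  have hdR := dR H
  induction n with
  | zero => intro t _ σ _; simp
  | succ n ih =>
    intro t ht σ hσ
    have h1 : σ / (d : ℝ) ^ (n + 1) = σ / (d : ℝ) ^ n / d := by rw [pow_succ, div_div]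
    rw [h1, g_R H ht (by positivity), ih _ (H.dA t ht) σ hσ, Function.iterate_succ_apply',
      ← mul_assoc, ← pow_succ]

theorem f_iter (n : ℕ) : ∀ z, green d c z < s → (fc d c)^[n] (g^[n] z) = z := by
  have hdR := dR H
  induction n with
  | zero => intro z _; rfl
  | succ n ih =>
    intro z hz
    have h1 := (iter_G (G := green d c) (d := (d : ℝ)) (s := s) (g := g)
      (green_nonneg H.hd c) (by linarith) (fun z hz => G_g H hz) n z hz).2
    rw [Function.iterate_succ_apply, Function.iterate_succ_apply', H.gf _ (slit_of_lt H h1)]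
    exact ih z hz

end

theorem fixQ (d : ℕ) (hd : 2 ≤ d) (c : ℂ) :
    (∃ p, fc d c p = p) ∧ {z | fc d c z = z}.Finite := by
  obtain ⟨Q, hQ⟩ : ∃ Q : Polynomial ℂ, Q = Polynomial.X ^ d + (Polynomial.C c - Polynomial.X) :=
    ⟨_, rfl⟩
  have hdeg : Q.degree = d := by
    rw [hQ]
    rw [Polynomial.degree_add_eq_left_of_degree_lt, Polynomial.degree_X_pow]
    rw [Polynomial.degree_X_pow]
    refine (Polynomial.degree_sub_le _ _).trans_lt ?_
    rw [Polynomial.degree_X]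
    refine max_lt ((Polynomial.degree_C_le).trans_lt ?_) ?_
    · exact_mod_cast (by omega : 0 < d)
    · exact_mod_cast (by omega : 1 < d)
  have hiff : ∀ z, fc d c z = z ↔ Q.IsRoot z := by
    intro z
    rw [hQ]
    simp only [Polynomial.IsRoot, Polynomial.eval_add, Polynomial.eval_pow, Polynomial.eval_X,
      Polynomial.eval_sub, Polynomial.eval_C]
    unfold fc
    constructor
    · intro h
      linear_combination h
    · intro h
      linear_combination h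
  constructor
  · obtain ⟨p, hp⟩ := IsAlgClosed.exists_root Q (by
      rw [hdeg]
      exact_mod_cast (by omega : d ≠ 0))
    exact ⟨p, (hiff p).2 hp⟩
  · have h1 : {z | fc d c z = z} = {z | Q.IsRoot z} := by
      ext z
      exact hiff z
    rw [h1]
    refine Polynomial.finite_setOfPred_isRoot ?_
    intro h0
    rw [h0, Polynomial.degree_zero] at hdeg
    exact absurd hdeg.symm (by simp)

theorem main_dat (hKOE : S_KOE) {d : ℕ} {Ψ : ℂ → ℂ → ℂ} {c : ℂ} {s θ x : ℝ} {g : ℂ → ℂ}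
    {A A₀ : Set ℝ} {R : ℝ → ℝ → ℂ} (H : Dat d Ψ c s θ x g A A₀ R)
    (F : Finset ℝ) (hF : (F : Set ℝ) ⊆ A₀) (hF2 : ∀ t ∈ A₀, ∃ t' ∈ F, ∃ n : ℤ, t = t' + n)
    {t₀ : ℝ} (ht₀ : t₀ ∈ A₀) :
    ∃ p : ℂ, fc d c p = p ∧ ∀ t ∈ A₀, Tendsto (fun σ => R t σ) (𝓝[>] 0) (𝓝 p) := by
  have hdR := dR H
  have hd0 : (0 : ℝ) < d := by linarith
  have hs := H.hs
  have hsd' := hsd H
  have hGc : Continuous (green d c) := continuous_green H.hd c
  have hGn : ∀ z, 0 ≤ green d c z := green_nonneg H.hd c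
  have hGg : ∀ z, green d c z < s → green d c (g z) = green d c z / (d : ℝ) := fun z hz =>
    G_g H hz
  have hgd : DifferentiableOn ℂ g {z | green d c z < s} := H.gd.mono fun z hz => slit_of_lt H hz
  obtain ⟨M, hM, hMb⟩ : ∃ M : ℝ, 0 < M ∧ ∀ z, green d c z < s → ‖z‖ ≤ M := by
    refine ⟨2 * max 1 ‖c‖ * Real.exp s, by positivity, fun z hz => ?_⟩
    have h1 := norm_iter_le H.hd (le_max_left 1 ‖c‖) (le_max_right 1 ‖c‖) z 0
    simp only [Function.iterate_zero, id_eq, pow_zero, one_mul] at h1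
    refine h1.trans ?_
    gcongr
  obtain ⟨σ₁, hσ₁⟩ : ∃ σ₁ : ℝ, σ₁ = (s / d + s) / 2 := ⟨_, rfl⟩
  have hσa : s / d < σ₁ := by rw [hσ₁]; linarith
  have hσb : σ₁ < s := by rw [hσ₁]; linarith
  have hσ0 : 0 < σ₁ := lt_trans (by positivity) hσa
  have hσd : σ₁ / d ≤ σ₁ := div_le_self hσ0.le (by linarith)
  have hσd0 : 0 < σ₁ / d := by positivity
  obtain ⟨C, hC⟩ : ∃ C : Set ℂ, C = Ψ c '' sphere (0:ℂ) (Real.exp σ₁) := ⟨_, rfl⟩
  have hsubD : sphere (0:ℂ) (Real.exp σ₁) ⊆ Dom (green d c 0) := by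
    intro w hw
    rw [mem_sphere_zero_iff_norm] at hw
    show green d c 0 < Real.log ‖w‖
    rw [hw, Real.log_exp, H.hG0]
    exact hσa
  have hCcont : ContinuousOn (Ψ c) (sphere (0:ℂ) (Real.exp σ₁)) :=
    (H.hB.diffw c).continuousOn.mono hsubD
  have hCc : IsCompact C := by rw [hC]; exact (isCompact_sphere _ _).image_of_continuousOn hCcont
  have hCp : IsPreconnected C := by
    rw [hC]
    refine IsPreconnected.image ?_ _ hCcont
    exact isPreconnected_sphere (by rw [Complex.rank_real_complex]; norm_num) _ _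
  have hCG : ∀ w ∈ C, green d c w = σ₁ := by
    intro w hw
    rw [hC] at hw
    obtain ⟨v, hv, rfl⟩ := hw
    rw [H.hB.pot c v (hsubD hv), (mem_sphere_zero_iff_norm.1 hv), Real.log_exp]
  have hexC : ∀ t : ℝ, Ψ c (ex σ₁ t) ∈ C := by
    intro t
    rw [hC]
    exact mem_image_of_mem _ (by rw [mem_sphere_zero_iff_norm, norm_ex])
  obtain ⟨X, hX⟩ : ∃ X : Set ℂ, X = C ∪ ⋃ t ∈ F, R t '' Icc (σ₁ / d) σ₁ := ⟨_, rfl⟩
  have hIcc : Icc (σ₁ / d) σ₁ ⊆ Ioi 0 := fun σ hσ => lt_of_lt_of_le hσd0 hσ.1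
  have hRc : ∀ t ∈ F, ContinuousOn (R t) (Icc (σ₁ / d) σ₁) := fun t ht =>
    (H.cont t (H.AA (hF ht))).mono hIcc
  have hXc : IsCompact X := by
    rw [hX]
    exact hCc.union (F.isCompact_biUnion fun t ht => isCompact_Icc.image_of_continuousOn (hRc t ht))
  have hXp : IsPreconnected X := by
    refine isPreconnected_of_forall (Ψ c (ex σ₁ 0)) fun y hy => ?_
    rw [hX] at hy ⊢
    rcases hy with hy | hy
    · exact ⟨C, subset_union_left, hexC 0, hy, hCp⟩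
    · simp only [mem_iUnion] at hy
      obtain ⟨t, ht, hy⟩ := hy
      refine ⟨C ∪ R t '' Icc (σ₁ / d) σ₁, ?_, Or.inl (hexC 0), Or.inr hy, ?_⟩
      · refine union_subset_union_right _ ?_
        exact subset_biUnion_of_mem (u := fun t => R t '' Icc (σ₁ / d) σ₁) ht
      · refine IsPreconnected.union (Ψ c (ex σ₁ t)) (hexC t) ?_ hCp
          (isPreconnected_Icc.image _ (hRc t ht))
        refine ⟨σ₁, ⟨hσd, le_rfl⟩, ?_⟩
        exact H.high t (H.AA (hF ht)) σ₁ hσ0 hσa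
  have hXG : ∀ w ∈ X, 0 < green d c w ∧ green d c w < s := by
    intro w hw
    rw [hX] at hw
    rcases hw with hw | hw
    · rw [hCG w hw]
      exact ⟨hσ0, hσb⟩
    · simp only [mem_iUnion] at hw
      obtain ⟨t, ht, σ, hσ, rfl⟩ := hw
      rw [H.pot t (H.AA (hF ht)) σ (hIcc hσ)]
      exact ⟨hIcc hσ, lt_of_le_of_lt hσ.2 hσb⟩
  have hUo : IsOpen {z | 0 < green d c z ∧ green d c z < s} :=
    (isOpen_lt continuous_const hGc).inter (isOpen_lt hGc continuous_const)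
  obtain ⟨δ, hδ, hδU⟩ := hXc.exists_thickening_subset_open hUo hXG
  obtain ⟨K, hK0, hK⟩ := hKOE X δ hXc hXp hδ
  obtain ⟨x₀, hx₀⟩ : ∃ x₀, x₀ ∈ X := ⟨_, by rw [hX]; exact Or.inl (hexC 0)⟩
  obtain ⟨e, he⟩ : ∃ e : ℕ → ℝ, e = fun n => 2 * (K * ‖deriv (g^[n]) x₀‖) := ⟨_, rfl⟩
  have he0 : Tendsto e atTop (𝓝 0) := by
    have h1 := shrink hGc hGn (by linarith : (1 : ℝ) < d) hM hMb hgd hGg (hXG x₀ hx₀).1
      (hXG x₀ hx₀).2
    have h2 := ((h1.norm.const_mul K).const_mul 2)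
    rw [norm_zero, mul_zero, mul_zero] at h2
    rw [he]
    exact h2
  have hdiam : ∀ n, ∀ a ∈ X, ∀ b ∈ X, ‖g^[n] a - g^[n] b‖ ≤ e n := by
    intro n a ha b hb
    have hdn : DifferentiableOn ℂ (g^[n]) (thickening δ X) :=
      (iter_diff hGn (by linarith : (1 : ℝ) < d) hgd hGg n).mono fun z hz => (hδU hz).2
    have hin : InjOn (g^[n]) (thickening δ X) := by
      intro z hz w hw hzw
      rw [← f_iter H n z (hδU hz).2, ← f_iter H n w (hδU hw).2, hzw]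
    have h1 := (hK _ hdn hin a ha x₀ hx₀).2
    have h2 := (hK _ hdn hin b hb x₀ hx₀).2
    have h3 : g^[n] a - g^[n] b = (g^[n] a - g^[n] x₀) - (g^[n] b - g^[n] x₀) := by ring
    rw [h3, he]
    refine (norm_sub_le _ _).trans ?_
    simp only
    linarith
  have hmem : ∀ t ∈ A₀, ∀ n : ℕ, ∀ σ ∈ Icc (σ₁ / d) σ₁, ∃ w ∈ X,
      R t (σ / (d : ℝ) ^ n) = g^[n] w := by
    intro t ht n σ hσ
    refine ⟨R ((d : ℝ) ^ n * t) σ, ?_, iter_R H n t ht σ (hIcc hσ)⟩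
    have h1 := dpow_mem H n t ht
    obtain ⟨t', ht', m, hm⟩ := hF2 _ h1
    have h2 : R ((d : ℝ) ^ n * t) σ = R t' σ := by
      rw [hm]
      exact H.per t' (H.AA (hF ht')) m (by rw [← hm]; exact H.AA h1) σ (hIcc hσ)
    rw [h2, hX]
    refine Or.inr ?_
    simp only [mem_iUnion]
    exact ⟨t', ht', σ, hσ, rfl⟩
  have hclose : ∀ t ∈ A₀, ∀ t' ∈ A₀, ∀ n : ℕ, ∀ σ ∈ Icc (σ₁ / d) σ₁, ∀ σ' ∈ Icc (σ₁ / d) σ₁,
      ‖R t (σ / (d : ℝ) ^ n) - R t' (σ' / (d : ℝ) ^ n)‖ ≤ e n := by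
    intro t ht t' ht' n σ hσ σ' hσ'
    obtain ⟨w, hw, h1⟩ := hmem t ht n σ hσ
    obtain ⟨w', hw', h2⟩ := hmem t' ht' n σ' hσ'
    rw [h1, h2]
    exact hdiam n w hw w' hw'
  have hm1 : σ₁ ∈ Icc (σ₁ / d) σ₁ := ⟨hσd, le_rfl⟩
  have hm2 : σ₁ / d ∈ Icc (σ₁ / d) σ₁ := ⟨le_rfl, hσd⟩
  obtain ⟨y, hy⟩ : ∃ y : ℕ → ℂ, y = fun n => R t₀ (σ₁ / (d : ℝ) ^ n) := ⟨_, rfl⟩
  have hy1 : ∀ n, ‖y (n + 1) - y n‖ ≤ e n := by
    intro n
    rw [hy]
    have h1 : σ₁ / (d : ℝ) ^ (n + 1) = σ₁ / d / (d : ℝ) ^ n := by rw [pow_succ', div_div]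
    show ‖R t₀ (σ₁ / (d : ℝ) ^ (n + 1)) - R t₀ (σ₁ / (d : ℝ) ^ n)‖ ≤ e n
    rw [h1]
    exact hclose t₀ ht₀ t₀ ht₀ n _ hm2 _ hm1
  have hy2 : ∀ n, ‖fc d c (y (n + 1)) - y n‖ ≤ e n := by
    intro n
    rw [hy]
    show ‖fc d c (R t₀ (σ₁ / (d : ℝ) ^ (n + 1))) - R t₀ (σ₁ / (d : ℝ) ^ n)‖ ≤ e n
    rw [H.conj t₀ (H.AA ht₀) _ (by positivity)]
    have h1 : (d : ℝ) * (σ₁ / (d : ℝ) ^ (n + 1)) = σ₁ / (d : ℝ) ^ n := by
      rw [pow_succ]
      field_simp
    rw [h1]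
    exact hclose _ (H.dA t₀ ht₀) t₀ ht₀ n _ hm1 _ hm1
  have hT2 : Tendsto (fun n => y (n + 1) - y n) atTop (𝓝 0) :=
    squeeze_zero_norm hy1 he0
  have hT1 : Tendsto (fun n => fc d c (y n) - y n) atTop (𝓝 0) := by
    have h1 : Tendsto (fun n => fc d c (y (n + 1)) - y n) atTop (𝓝 0) :=
      squeeze_zero_norm hy2 he0
    have h2 := h1.sub hT2
    rw [sub_zero] at h2
    refine (tendsto_add_atTop_iff_nat 1).1 (h2.congr fun n => ?_)
    ring
  have hyM : ∀ n, ‖y n‖ ≤ M := by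
    intro n
    rw [hy]
    refine hMb _ ?_
    show green d c (R t₀ (σ₁ / (d : ℝ) ^ n)) < s
    rw [H.pot t₀ (H.AA ht₀) _ (by positivity)]
    exact lt_of_le_of_lt (div_le_self hσ0.le (one_le_pow₀ (by linarith))) hσb
  have hfcont : Continuous (fc d c) := by
    unfold fc
    fun_prop
  obtain ⟨p, hp, hyp⟩ := land (fc d c) hfcont (fixQ d H.hd c).2 y M hyM hT1 hT2
  refine ⟨p, hp, fun t ht => ?_⟩
  rw [Metric.tendsto_nhdsWithin_nhds]
  intro ε hε
  obtain ⟨N1, hN1⟩ := Metric.tendsto_atTop.1 he0 (ε / 2) (by positivity)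
  obtain ⟨N2, hN2⟩ := Metric.tendsto_atTop.1 hyp (ε / 2) (by positivity)
  refine ⟨σ₁ / (d : ℝ) ^ (max N1 N2), by positivity, fun σ hσ hσ2 => ?_⟩
  have hσ' : 0 < σ := hσ
  rw [Real.dist_eq, sub_zero, abs_of_pos hσ'] at hσ2
  have h1 : (d : ℝ) ^ (max N1 N2) < σ₁ / σ := by
    rw [lt_div_iff₀ hσ']
    rw [lt_div_iff₀ (by positivity)] at hσ2
    linarith
  have h2 : 1 ≤ σ₁ / σ := (one_le_pow₀ (by linarith)).trans h1.le
  obtain ⟨n, hn1, hn2⟩ := exists_nat_pow_near h2 (by linarith : (1 : ℝ) < d)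
  have h3 : max N1 N2 < n + 1 := by
    have h4 : (d : ℝ) ^ (max N1 N2) < (d : ℝ) ^ (n + 1) := h1.trans hn2
    exact (pow_lt_pow_iff_right₀ (by linarith : (1 : ℝ) < d)).1 h4
  have hσn : σ * (d : ℝ) ^ n ∈ Icc (σ₁ / d) σ₁ := by
    constructor
    · rw [div_le_iff₀ hd0]
      rw [div_lt_iff₀ hσ', pow_succ] at hn2
      linarith
    · rw [le_div_iff₀ hσ'] at hn1
      linarith
  have h5 := hclose t ht t₀ ht₀ n _ hσn _ hm1
  rw [mul_div_cancel_right₀ _ (by positivity)] at h5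
  have h6 := hN1 n (by omega)
  have h7 := hN2 n (by omega)
  rw [Real.dist_eq, sub_zero] at h6
  have h8 : e n < ε / 2 := lt_of_abs_lt h6
  have h9 : ‖R t σ - y n‖ ≤ e n := by rw [hy]; exact h5
  calc dist (R t σ) p ≤ dist (R t σ) (y n) + dist (y n) p := dist_triangle _ _ _
    _ < ε / 2 + ε / 2 := by
        rw [dist_eq_norm (R t σ)]
        linarith
    _ = ε := by ring

theorem ala : S_CG → S_BOT2 → S_SLIT → S_KOE → S_ALA := by
  intro hCG hBOT hSLIT hKOE d Ψ ψ s θ x c₀ r A A₀ z hd hB hψ hs hx hz hc hA hdA hAx hF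
  obtain ⟨F, hF1, hF2⟩ := hF
  have hw : 1 < ‖ex s θ‖ := by
    rw [norm_ex]
    exact Real.one_lt_exp_iff.2 hs
  obtain ⟨h1, h2⟩ := hBOT d Ψ ψ hd hB hψ (ex s θ) hw
  rw [norm_ex, Real.log_exp] at h1
  obtain ⟨hopen, g, hg1, hg2, hg3⟩ := hSLIT d Ψ ψ s θ x hd hB hψ hs hx
  rcases A₀.eq_empty_or_nonempty with hA0 | ⟨t₀, ht₀⟩
  · obtain ⟨p, hp⟩ := (fixQ d hd (ψ (ex s θ))).1
    refine ⟨p, hp, fun t ht => ?_⟩
    rw [hA0] at ht
    exact absurd ht (notMem_empty t)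
  · have H : Dat d Ψ (ψ (ex s θ)) s θ x g A A₀ (fun t σ => z t σ (ψ (ex s θ))) := by
      refine ⟨hd, hB, h1, h2, hs, hx, (hCG d hd).2.1 _, hg1, hg2, fun σ t h3 h4 => (hg3 σ t h3 h4).2,
        hA, hdA, hAx, fun t ht => ?_, fun t ht σ hσ => hz.conj t ht σ hσ _ hc,
        fun t ht σ hσ => hz.pot t ht σ hσ _ hc, fun t ht σ hσ h3 => ?_, fun t ht n hn σ hσ => ?_⟩
      · exact (hz.cont t ht).comp (f := fun σ : ℝ => (σ, ψ (ex s θ))) (by fun_prop)
          fun σ hσ => ⟨hσ, hc⟩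
      · exact hz.high t ht σ hσ _ hc (by rw [h1]; exact h3)
      · have hd0 : (d : ℝ) ≠ 0 := by
          have : (2 : ℝ) ≤ d := by exact_mod_cast hd
          linarith
        have h4 : (((n * d : ℤ) : ℝ) / d) = n := by
          push_cast
          field_simp
        have h5 := hz.rot t ht (n * d) (by rw [h4]; exact hn) σ hσ _ hc
        rw [h4] at h5
        have h6 : ex 0 (n : ℝ) = 1 := by
          have h7 := ex_add_int 0 0 n
          rw [zero_add] at h7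
          rw [h7]
          unfold ex
          simp
        rw [h6, one_mul] at h5
        exact h5
    exact main_dat hKOE H F hF1 hF2 ht₀

end Pool.Agent.Y604.LC
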